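import Pool.Agent.Q63.ISO.Ama

/-!
PROJECT ISO (helper63): conformality and the Laplace-Beltrami operator in isothermal coordinates.
-/

set_option autoImplicit false

open MeasureTheory Set Filter Metric
open scoped ContDiff Topology

namespace Pool.Agent.Q63.ISO

lemma be_0_0 : (be 0) 0 = 1 := by simp [be]
lemma be_0_1 : (be 0) 1 = 0 := by simp [be]
lemma be_1_0 : (be 1) 0 = 0 := by simp [be]
lemma be_1_1 : (be 1) 1 = 1 := by simp [be]

lemma clm_complex (L : ℂ →L[ℝ] ℝ) (x y : ℝ) : L ((x : ℂ) + (y : ℂ) * Complex.I)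
    = x * L 1 + y * L Complex.I := by
  have h1 : (x : ℂ) + (y : ℂ) * Complex.I = x • (1 : ℂ) + y • Complex.I := by
    simp [Complex.real_smul]
  rw [h1, map_add, map_smul, map_smul, smul_eq_mul, smul_eq_mul]

lemma norm_complex (x y : ℝ) : ‖(x : ℂ) + (y : ℂ) * Complex.I‖ ^ 2 = x ^ 2 + y ^ 2 := by
  rw [Complex.sq_norm, Complex.normSq_add_mul_I]

theorem proof_con : S_CON := by
  intro 𝔤 W α ψ χ hs hp hc
  obtain ⟨hA, hA2⟩ := proof_ama 𝔤 W hs hp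
  -- notations
  obtain ⟨p, hpd⟩ : ∃ p : P → ℝ, p = fun y => ∑ m, amat 𝔤 y 0 m * α m y := ⟨_, rfl⟩
  obtain ⟨q, hqd⟩ : ∃ q : P → ℝ, q = fun y => ∑ m, amat 𝔤 y 1 m * α m y := ⟨_, rfl⟩
  have hpe : ∀ y, p y = amat 𝔤 y 0 0 * α 0 y + amat 𝔤 y 0 1 * α 1 y := fun y => by
    rw [hpd]; simp [Fin.sum_univ_two]
  have hqe : ∀ y, q y = amat 𝔤 y 1 0 * α 0 y + amat 𝔤 y 1 1 * α 1 y := fun y => by
    rw [hqd]; simp [Fin.sum_univ_two]
  have hps : ContDiffOn ℝ ∞ p W := by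
    rw [hpd]
    exact ContDiffOn.sum fun m _ => (hA 0 m).mul (hc.smoothα m)
  have hqs : ContDiffOn ℝ ∞ q W := by
    rw [hqd]
    exact ContDiffOn.sum fun m _ => (hA 1 m).mul (hc.smoothα m)
  obtain ⟨S, hS⟩ : ∃ S : P → ℝ, S = fun y => α 0 y * p y + α 1 y * q y := ⟨_, rfl⟩
  have hSs : ContDiffOn ℝ ∞ S W := by
    rw [hS]
    exact ((hc.smoothα 0).mul hps).add ((hc.smoothα 1).mul hqs)
  have hD : ∀ y ∈ W, 0 < √((𝔤 y).det) := fun y hy => Real.sqrt_pos.2 (hp y hy).2.2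
  have hDs : ContDiffOn ℝ ∞ (fun z => √((𝔤 z).det)) W := by
    have h1 : ContDiffOn ℝ ∞ (fun z => 𝔤 z 0 0 * 𝔤 z 1 1 - 𝔤 z 0 1 * 𝔤 z 1 0) W :=
      ((hs 0 0).mul (hs 1 1)).sub ((hs 0 1).mul (hs 1 0))
    have h2 : ContDiffOn ℝ ∞ (fun z => (𝔤 z).det) W := h1.congr fun z _ => Matrix.det_fin_two _
    exact h2.sqrt fun z hz => (hp z hz).2.2.ne'
  have hDq : ∀ y ∈ W, √((𝔤 y).det) ^ 2 = 𝔤 y 0 0 * 𝔤 y 1 1 - 𝔤 y 0 1 ^ 2 := fun y hy => by
    rw [Real.sq_sqrt (hp y hy).2.2.le, Matrix.det_fin_two, ← (hp y hy).1]; ring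
  have hSq : ∀ y ∈ W, √((𝔤 y).det) * S y
      = 𝔤 y 1 1 * α 0 y ^ 2 - 2 * 𝔤 y 0 1 * α 0 y * α 1 y + 𝔤 y 0 0 * α 1 y ^ 2 := fun y hy => by
    have h1 := hD y hy
    rw [hS]
    simp only [hpe, hqe, amat00 (hp y hy), amat01 (hp y hy), amat10 (hp y hy), amat11 (hp y hy)]
    field_simp
    ring
  have hSp : ∀ y ∈ W, 0 < S y := fun y hy => by
    have h1 := hD y hy
    have h2 := hSq y hy
    have h3 := hc.ne y hy
    have h4 := pos2_det (hp y hy)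
    have h5 := (hp y hy).2.1
    have h6 := pos2_11 (hp y hy)
    have h7 : 0 < √((𝔤 y).det) * S y := by
      rw [h2]
      have h8 : 0 < 𝔤 y 0 0 * (𝔤 y 1 1 * α 0 y ^ 2 - 2 * 𝔤 y 0 1 * α 0 y * α 1 y
          + 𝔤 y 0 0 * α 1 y ^ 2) := by
        have h9 : 𝔤 y 0 0 * (𝔤 y 1 1 * α 0 y ^ 2 - 2 * 𝔤 y 0 1 * α 0 y * α 1 y
          + 𝔤 y 0 0 * α 1 y ^ 2) = (𝔤 y 0 0 * 𝔤 y 1 1 - 𝔤 y 0 1 ^ 2) * α 0 y ^ 2
            + (𝔤 y 0 0 * α 1 y - 𝔤 y 0 1 * α 0 y) ^ 2 := by ring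
        rw [h9]
        positivity
      exact (mul_pos_iff_of_pos_left h5).1 h8
    exact (mul_pos_iff_of_pos_left h1).1 h7
  refine ⟨fun w => √((𝔤 (χ w)).det) / S (χ w), ?_, ?_, ?_, ?_⟩
  · have hm : MapsTo χ (ψ '' W) W := by
      rintro w ⟨y, hy, rfl⟩
      rw [hc.inv y hy]
      exact hy
    exact (hDs.comp hc.smoothχ hm).div (hSs.comp hc.smoothχ hm) fun w hw => (hSp _ (hm hw)).ne'
  · rintro w ⟨y, hy, rfl⟩
    show 0 < √((𝔤 (χ (ψ y))).det) / S (χ (ψ y))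
    rw [hc.inv y hy]
    exact div_pos (hD y hy) (hSp y hy)
  · intro z hz v
    show _ = √((𝔤 (χ (ψ z))).det) / S (χ (ψ z)) * _
    rw [hc.inv z hz, hc.der z hz v, norm_complex]
    have e1 := hpe z
    have e2 := hqe z
    rw [hpd] at e1
    rw [hqd] at e2
    simp only at e1 e2
    rw [e1, e2]
    simp only [Fin.sum_univ_two]
    rw [amat00 (hp z hz), amat01 (hp z hz), amat10 (hp z hz), amat11 (hp z hz), ← (hp z hz).1]
    have h1 := hD z hz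
    have h2 := hSp z hz
    have h3 := hDq z hz
    have h4 := hSq z hz
    rw [eq_comm, div_mul_eq_mul_div, div_eq_iff h2.ne']
    have h5 : √((𝔤 z).det) ≠ 0 := h1.ne'
    have h6 : √((𝔤 z).det) * (√((𝔤 z).det) * ((α 0 z * v 0 + α 1 z * v 1) ^ 2 +
        (-(𝔤 z 1 0 * 0 + -𝔤 z 0 1 / √((𝔤 z).det) * α 0 z + 𝔤 z 0 0 / √((𝔤 z).det) * α 1 z) * v 0 +
          (𝔤 z 1 1 / √((𝔤 z).det) * α 0 z + -𝔤 z 0 1 / √((𝔤 z).det) * α 1 z) * v 1) ^ 2))
        = (𝔤 z 0 0 * 𝔤 z 1 1 - 𝔤 z 0 1 ^ 2) * (α 0 z * v 0 + α 1 z * v 1) ^ 2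
          + ((𝔤 z 0 1 * α 0 z - 𝔤 z 0 0 * α 1 z) * v 0
            + (𝔤 z 1 1 * α 0 z - 𝔤 z 0 1 * α 1 z) * v 1) ^ 2 := by
      rw [← h3]
      field_simp
      ring
    have h7 : √((𝔤 z).det) * ((𝔤 z 0 0 * v 0 * v 0 + 𝔤 z 0 1 * v 0 * v 1
        + (𝔤 z 0 1 * v 1 * v 0 + 𝔤 z 1 1 * v 1 * v 1)) * S z)
        = (𝔤 z 0 0 * v 0 * v 0 + 𝔤 z 0 1 * v 0 * v 1
        + (𝔤 z 0 1 * v 1 * v 0 + 𝔤 z 1 1 * v 1 * v 1)) * (√((𝔤 z).det) * S z) := by ring
    refine mul_left_cancel₀ h5 ?_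
    rw [h7, h4]
    rw [mul_zero, zero_add] at h6
    rw [h6]
    ring
  · intro h hh z hz
    have hD0 := (hD z hz).ne'
    have hS0 := (hSp z hz).ne'
    have hzn : W ∈ 𝓝 z := hc.openW.mem_nhds hz
    have hwn : ψ '' W ∈ 𝓝 (ψ z) := hc.openI.mem_nhds ⟨z, hz, rfl⟩
    have hhx : ∀ v : ℂ, ContDiffOn ℝ ∞ (fun w => fderiv ℝ h w v) (ψ '' W) := fun v => by
      have h1 : ContDiffOn ℝ ∞ (fderiv ℝ h) (ψ '' W) := hh.fderiv_of_isOpen hc.openI (by simp)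
      exact h1.clm_apply contDiffOn_const
    have hψd : ∀ y ∈ W, DifferentiableAt ℝ ψ y := fun y hy =>
      (hc.smoothψ.differentiableOn (by simp)).differentiableAt (hc.openW.mem_nhds hy)
    have hder : ∀ (k : ℂ → ℝ), ContDiffOn ℝ ∞ k (ψ '' W) → ∀ y ∈ W, ∀ v : P,
        fderiv ℝ (fun y => k (ψ y)) y v = (α 0 y * v 0 + α 1 y * v 1) * fderiv ℝ k (ψ y) 1
          + (-q y * v 0 + p y * v 1) * fderiv ℝ k (ψ y) Complex.I := by
      intro k hk y hy v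
      have hkd : DifferentiableAt ℝ k (ψ y) :=
        (hk.differentiableOn (by simp)).differentiableAt (hc.openI.mem_nhds ⟨y, hy, rfl⟩)
      have h1 : fderiv ℝ (fun y => k (ψ y)) y = (fderiv ℝ k (ψ y)).comp (fderiv ℝ ψ y) :=
        fderiv_comp y hkd (hψd y hy)
      rw [h1, ContinuousLinearMap.comp_apply, hc.der y hy v, clm_complex]
      rw [hpd, hqd]
      simp only [Fin.sum_univ_two]
    have hF : ∀ i : Fin 2, ∀ y ∈ W, √((𝔤 y).det) * ∑ j, (𝔤 y)⁻¹ i j * fderiv ℝ (fun y => h (ψ y)) y (be j)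
        = amat 𝔤 y i 0 * fderiv ℝ (fun y => h (ψ y)) y (be 0)
          + amat 𝔤 y i 1 * fderiv ℝ (fun y => h (ψ y)) y (be 1) := by
      intro i y hy
      rw [Fin.sum_univ_two, amat, Matrix.smul_apply, Matrix.smul_apply, smul_eq_mul, smul_eq_mul]
      ring
    have hF0 : ∀ y ∈ W, √((𝔤 y).det) * ∑ j, (𝔤 y)⁻¹ 0 j * fderiv ℝ (fun y => h (ψ y)) y (be j)
        = fderiv ℝ h (ψ y) 1 * p y - fderiv ℝ h (ψ y) Complex.I * α 1 y := by
      intro y hy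
      rw [hF 0 y hy, hder h hh y hy, hder h hh y hy, be_0_0, be_0_1, be_1_0, be_1_1, hpe, hqe,
        amat00 (hp y hy), amat01 (hp y hy), amat10 (hp y hy), amat11 (hp y hy)]
      have h1 := (hD y hy).ne'
      have h3 := hDq y hy
      field_simp
      linear_combination (α 1 y * fderiv ℝ h (ψ y) Complex.I) * h3
    have hF1 : ∀ y ∈ W, √((𝔤 y).det) * ∑ j, (𝔤 y)⁻¹ 1 j * fderiv ℝ (fun y => h (ψ y)) y (be j)
        = fderiv ℝ h (ψ y) 1 * q y + fderiv ℝ h (ψ y) Complex.I * α 0 y := by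
      intro y hy
      rw [hF 1 y hy, hder h hh y hy, hder h hh y hy, be_0_0, be_0_1, be_1_0, be_1_1, hpe, hqe,
        amat00 (hp y hy), amat01 (hp y hy), amat10 (hp y hy), amat11 (hp y hy)]
      have h1 := (hD y hy).ne'
      have h3 := hDq y hy
      field_simp
      linear_combination -(α 0 y * fderiv ℝ h (ψ y) Complex.I) * h3
    have hdiff : ∀ k : P → ℝ, ContDiffOn ℝ ∞ k W → DifferentiableAt ℝ k z := fun k hk =>
      (hk.differentiableOn (by simp)).differentiableAt hzn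
    have hcomp : ∀ v : ℂ, DifferentiableAt ℝ (fun y => fderiv ℝ h (ψ y) v) z := fun v =>
      hdiff _ ((hhx v).comp hc.smoothψ (fun y hy => ⟨y, hy, rfl⟩))
    have hp1 := hdiff p hps
    have hq1 := hdiff q hqs
    have ha0 := hdiff (α 0) (hc.smoothα 0)
    have ha1 := hdiff (α 1) (hc.smoothα 1)
    have e0 : fderiv ℝ (fun y => √((𝔤 y).det) * ∑ j, (𝔤 y)⁻¹ 0 j *
        fderiv ℝ (fun y => h (ψ y)) y (be j)) z (be 0)
        = fderiv ℝ (fun y => fderiv ℝ h (ψ y) 1 * p y - fderiv ℝ h (ψ y) Complex.I * α 1 y) z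
          (be 0) := by
      congr 1
      refine Filter.EventuallyEq.fderiv_eq ?_
      filter_upwards [hzn] with y hy using hF0 y hy
    have e1 : fderiv ℝ (fun y => √((𝔤 y).det) * ∑ j, (𝔤 y)⁻¹ 1 j *
        fderiv ℝ (fun y => h (ψ y)) y (be j)) z (be 1)
        = fderiv ℝ (fun y => fderiv ℝ h (ψ y) 1 * q y + fderiv ℝ h (ψ y) Complex.I * α 0 y) z
          (be 1) := by
      congr 1
      refine Filter.EventuallyEq.fderiv_eq ?_
      filter_upwards [hzn] with y hy using hF1 y hy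
    have hcurl := hc.curl z hz
    have hdivg := hc.divg z hz
    rw [Fin.sum_univ_two] at hdivg
    have hdivg' : fderiv ℝ p z (be 0) + fderiv ℝ q z (be 1) = 0 := by
      rw [hpd, hqd]
      exact hdivg
    have hx0 := hder _ (hhx 1) z hz (be 0)
    have hx1 := hder _ (hhx 1) z hz (be 1)
    have hy0 := hder _ (hhx Complex.I) z hz (be 0)
    have hy1 := hder _ (hhx Complex.I) z hz (be 1)
    rw [be_0_0, be_0_1] at hx0 hy0
    rw [be_1_0, be_1_1] at hx1 hy1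
    have f0 : fderiv ℝ (fun y => fderiv ℝ h (ψ y) 1 * p y
        - fderiv ℝ h (ψ y) Complex.I * α 1 y) z (be 0)
        = (fderiv ℝ h (ψ z) 1 * fderiv ℝ p z (be 0)
            + p z * fderiv ℝ (fun y => fderiv ℝ h (ψ y) 1) z (be 0))
          - (fderiv ℝ h (ψ z) Complex.I * fderiv ℝ (α 1) z (be 0)
            + α 1 z * fderiv ℝ (fun y => fderiv ℝ h (ψ y) Complex.I) z (be 0)) := by
      rw [fderiv_fun_sub ((hcomp 1).fun_mul hp1) ((hcomp Complex.I).fun_mul ha1),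
        fderiv_fun_mul (hcomp 1) hp1, fderiv_fun_mul (hcomp Complex.I) ha1]
      simp only [ContinuousLinearMap.sub_apply, ContinuousLinearMap.add_apply,
        ContinuousLinearMap.smul_apply, smul_eq_mul]
    have f1 : fderiv ℝ (fun y => fderiv ℝ h (ψ y) 1 * q y
        + fderiv ℝ h (ψ y) Complex.I * α 0 y) z (be 1)
        = (fderiv ℝ h (ψ z) 1 * fderiv ℝ q z (be 1)
            + q z * fderiv ℝ (fun y => fderiv ℝ h (ψ y) 1) z (be 1))
          + (fderiv ℝ h (ψ z) Complex.I * fderiv ℝ (α 0) z (be 1)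
            + α 0 z * fderiv ℝ (fun y => fderiv ℝ h (ψ y) Complex.I) z (be 1)) := by
      rw [fderiv_fun_add ((hcomp 1).fun_mul hq1) ((hcomp Complex.I).fun_mul ha0),
        fderiv_fun_mul (hcomp 1) hq1, fderiv_fun_mul (hcomp Complex.I) ha0]
      simp only [ContinuousLinearMap.add_apply,
        ContinuousLinearMap.smul_apply, smul_eq_mul]
    show lapC h (ψ z) = √((𝔤 (χ (ψ z))).det) / S (χ (ψ z)) * LB 𝔤 (fun y => h (ψ y)) z
    rw [hc.inv z hz, LB, Fin.sum_univ_two, e0, e1, f0, f1, hx0, hx1, hy0, hy1, lapC]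
    have hq2 : fderiv ℝ q z (be 1) = -fderiv ℝ p z (be 0) := by linarith
    rw [hq2, hcurl]
    have hSe : S z = α 0 z * p z + α 1 z * q z := by rw [hS]
    rw [div_mul_eq_mul_div, eq_div_iff hS0]
    rw [← mul_assoc, mul_inv_cancel₀ hD0, one_mul, hSe]
    ring

end Pool.Agent.Q63.ISO
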