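import Pool.Agent.Q63.ISO.Atl
import Pool.Agent.Q63.ISO.Conf
import Pool.Agent.Q92.ISO.CHA
import Pool.Agent.Q92.ISO.TRA
import Pool.Agent.Q65.ISO.WIE
import Pool.Agent.Q203.ISO.Mom
import Pool.Agent.Q203.ISO.Neu
import Pool.Agent.Q38.ISO.LOC
import Pool.Agent.Q280.ISO.LEN
import Pool.Agent.Q91.ISO.GRA
import Pool.Agent.Q91.ISO.SUB
import Pool.Agent.Q91.ISO.POT

/-!
PROJECT ISO (helper63, with helpers 38, 65, 91, 92, 203, 280): every smooth Riemannian manifold of dimension
two (in the sense of Mathlib, with its geodesic distance) has an isothermal atlas; the eigenfunctions of the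
Laplace-Beltrami operator are the eigenfunctions in the isothermal charts.
-/

set_option autoImplicit false

open MeasureTheory Set Filter Metric Bundle
open scoped ContDiff Topology Manifold

namespace Pool.Agent.Q63.ISO

universe u

theorem proof_pot : S_POT :=
  Pool.Agent.Q91.ISO.POT.proof_pot (Pool.Agent.Q65.ISO.WIE.proof_wie Pool.Agent.Q65.ISO.TRN.proof_trn)
    (Pool.Agent.Q203.ISO.proof_neu Pool.Agent.Q203.ISO.proof_mom)

/-- **Isothermal atlas** of a smooth Riemannian surface `M`: charts indexed by the points of `M`, conformal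
factors `ρ i` of class `C^∞`, same distance (`Riem`), and every solution of `Δ_g f + lam f = 0` (`EigM`) is a solution
in the isothermal charts (`Eig`). -/
theorem atlas (M : Type u) [MetricSpace M] [ChartedSpace P M]
    [IsManifold (𝓡 2) ∞ M] [RiemannianBundle (fun (x : M) ↦ TangentSpace (𝓡 2) x)]
    [IsContMDiffRiemannianBundle (𝓡 2) ∞ P (fun (x : M) ↦ TangentSpace (𝓡 2) x)]
    [IsRiemannianManifold (𝓡 2) M] :
    ∃ (U : M → Set ℂ) (φ : M → ℂ → M) (ρ : M → ℂ → ℝ), Pool.Agent.Q73.AD.Riem U φ ρ ∧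
      (∀ i, ContDiffOn ℝ ∞ (ρ i) (U i)) ∧
      ∀ (lam : ℝ) (f : M → ℝ), EigM lam f → Pool.Agent.Q73.AD.Eig U φ ρ lam f :=
  atlas_of (Pool.Agent.Q38.ISO.LOC.proof_loc proof_pot) proof_ama proof_con
    (Pool.Agent.Q92.ISO.CHA.proof_cha Pool.Agent.Q91.ISO.GRA.proof_gra) Pool.Agent.Q92.ISO.TRA.proof_tra
    Pool.Agent.Q280.ISO.LEN.proof_len (Pool.Agent.Q91.ISO.SUB.proof_sub Pool.Agent.Q280.ISO.LEN.proof_len)
    M

end Pool.Agent.Q63.ISO
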