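import Pool.Agent.Q63.ISO.Stm

/-!
PROJECT ISO (helper63): the matrix `√(det g) g⁻¹`.
-/

set_option autoImplicit false

open MeasureTheory Set Filter Metric
open scoped ContDiff Topology

namespace Pool.Agent.Q63.ISO

/-- The entries of `amat`. -/
lemma amat_apply {𝔤 : P → Matrix (Fin 2) (Fin 2) ℝ} {z : P} (h : Pos2 (𝔤 z)) (i j : Fin 2) :
    amat 𝔤 z i j = (𝔤 z).adjugate i j / √((𝔤 z).det) := by
  have hd := h.2.2
  have hs : 0 < √((𝔤 z).det) := Real.sqrt_pos.2 hd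
  have hss : √((𝔤 z).det) * √((𝔤 z).det) = (𝔤 z).det := Real.mul_self_sqrt hd.le
  rw [amat, Matrix.smul_apply, Matrix.inv_def, Matrix.smul_apply, smul_eq_mul, smul_eq_mul,
    Ring.inverse_eq_inv']
  rw [div_eq_mul_inv, mul_comm ((𝔤 z).adjugate i j), ← mul_assoc]
  congr 1
  have h1 : ((𝔤 z).det)⁻¹ = (√((𝔤 z).det))⁻¹ * (√((𝔤 z).det))⁻¹ := by rw [← mul_inv, hss]
  rw [h1, ← mul_assoc, mul_inv_cancel₀ hs.ne', one_mul]

lemma amat00 {𝔤 : P → Matrix (Fin 2) (Fin 2) ℝ} {z : P} (h : Pos2 (𝔤 z)) :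
    amat 𝔤 z 0 0 = 𝔤 z 1 1 / √((𝔤 z).det) := by
  rw [amat_apply h, Matrix.adjugate_fin_two]; simp

lemma amat01 {𝔤 : P → Matrix (Fin 2) (Fin 2) ℝ} {z : P} (h : Pos2 (𝔤 z)) :
    amat 𝔤 z 0 1 = -𝔤 z 0 1 / √((𝔤 z).det) := by
  rw [amat_apply h, Matrix.adjugate_fin_two]; simp

lemma amat10 {𝔤 : P → Matrix (Fin 2) (Fin 2) ℝ} {z : P} (h : Pos2 (𝔤 z)) :
    amat 𝔤 z 1 0 = -𝔤 z 0 1 / √((𝔤 z).det) := by
  rw [amat_apply h, Matrix.adjugate_fin_two, h.1]; simp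

lemma amat11 {𝔤 : P → Matrix (Fin 2) (Fin 2) ℝ} {z : P} (h : Pos2 (𝔤 z)) :
    amat 𝔤 z 1 1 = 𝔤 z 0 0 / √((𝔤 z).det) := by
  rw [amat_apply h, Matrix.adjugate_fin_two]; simp

lemma pos2_det {A : Matrix (Fin 2) (Fin 2) ℝ} (h : Pos2 A) :
    0 < A 0 0 * A 1 1 - A 0 1 ^ 2 := by
  have h1 := h.2.2
  rw [Matrix.det_fin_two, ← h.1] at h1
  nlinarith

lemma pos2_11 {A : Matrix (Fin 2) (Fin 2) ℝ} (h : Pos2 A) : 0 < A 1 1 := by
  have h1 := pos2_det h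
  have h2 := h.2.1
  by_contra h3
  nlinarith [sq_nonneg (A 0 1)]

theorem proof_ama : S_AMA := by
  intro 𝔤 W hs hp
  have hdet : ContDiffOn ℝ ∞ (fun z => (𝔤 z).det) W := by
    have h1 : ContDiffOn ℝ ∞ (fun z => 𝔤 z 0 0 * 𝔤 z 1 1 - 𝔤 z 0 1 * 𝔤 z 1 0) W :=
      ((hs 0 0).mul (hs 1 1)).sub ((hs 0 1).mul (hs 1 0))
    exact h1.congr fun z _ => Matrix.det_fin_two _
  have hsq : ContDiffOn ℝ ∞ (fun z => √((𝔤 z).det)) W := hdet.sqrt fun z hz => (hp z hz).2.2.ne'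
  have hne : ∀ z ∈ W, √((𝔤 z).det) ≠ 0 := fun z hz => (Real.sqrt_pos.2 (hp z hz).2.2).ne'
  constructor
  · intro i j
    have key : ∀ i j, ContDiffOn ℝ ∞ (fun z => (𝔤 z).adjugate i j / √((𝔤 z).det)) W := by
      intro i j
      refine ContDiffOn.div ?_ hsq hne
      fin_cases i <;> fin_cases j <;> simp only [Matrix.adjugate_fin_two]
      · simpa using hs 1 1
      · simpa using (hs 0 1).neg
      · simpa using (hs 1 0).neg
      · simpa using hs 0 0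
    exact (key i j).congr fun z hz => amat_apply (hp z hz) i j
  · intro z hz
    have hpz := hp z hz
    have hd : 0 < √((𝔤 z).det) := Real.sqrt_pos.2 hpz.2.2
    have hss : √((𝔤 z).det) ^ 2 = (𝔤 z).det := Real.sq_sqrt hpz.2.2.le
    refine ⟨?_, ?_, ?_⟩
    · rw [amat01 hpz, amat10 hpz]
    · rw [amat00 hpz]
      exact div_pos (pos2_11 hpz) hd
    · rw [Matrix.det_fin_two, amat00 hpz, amat01 hpz, amat10 hpz, amat11 hpz]
      have h1 := pos2_det hpz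
      have h2 : 𝔤 z 1 1 / √((𝔤 z).det) * (𝔤 z 0 0 / √((𝔤 z).det)) -
          -𝔤 z 0 1 / √((𝔤 z).det) * (-𝔤 z 0 1 / √((𝔤 z).det))
          = (𝔤 z 0 0 * 𝔤 z 1 1 - 𝔤 z 0 1 ^ 2) / √((𝔤 z).det) ^ 2 := by
        field_simp
        try ring
      rw [h2]
      positivity

end Pool.Agent.Q63.ISO
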