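import Pool.Agent.Q63.ISO.Stm2

/-!
PROJECT ISO (helper63): assembly. Every Riemannian manifold of dimension two (in the sense of Mathlib)
has an isothermal atlas.
-/

set_option autoImplicit false

open MeasureTheory Set Filter Metric Bundle
open scoped ContDiff Topology Manifold

namespace Pool.Agent.Q63.ISO

universe u

/-- The local theorem. -/
theorem iso_local (hLOC : S_LOC) (hAMA : S_AMA) (hCON : S_CON) (Ω : Set P) (z₀ : P)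
    (𝔤 : P → Matrix (Fin 2) (Fin 2) ℝ) (hΩ : IsOpen Ω) (hz : z₀ ∈ Ω)
    (hs : ∀ i j, ContDiffOn ℝ ∞ (fun z => 𝔤 z i j) Ω) (hp : ∀ z ∈ Ω, Pos2 (𝔤 z)) :
    ∃ (W : Set P) (ψ : P → ℂ) (χ : ℂ → P) (ρ : ℂ → ℝ), z₀ ∈ W ∧ W ⊆ Ω ∧ IsOpen W ∧ IsOpen (ψ '' W) ∧
      ContDiffOn ℝ ∞ ψ W ∧ ContDiffOn ℝ ∞ χ (ψ '' W) ∧ (∀ z ∈ W, χ (ψ z) = z) ∧
      ContDiffOn ℝ ∞ ρ (ψ '' W) ∧ (∀ w ∈ ψ '' W, 0 < ρ w) ∧
      (∀ z ∈ W, ∀ v : P, ∑ i, ∑ j, 𝔤 z i j * v i * v j = ρ (ψ z) * ‖fderiv ℝ ψ z v‖ ^ 2) ∧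
      ∀ h : ℂ → ℝ, ContDiffOn ℝ ∞ h (ψ '' W) → ∀ z ∈ W,
        lapC h (ψ z) = ρ (ψ z) * LB 𝔤 (fun y => h (ψ y)) z := by
  obtain ⟨hA1, hA2⟩ := hAMA 𝔤 Ω hs hp
  obtain ⟨W, α, ψ, χ, hzW, hW, hc⟩ := hLOC Ω z₀ (amat 𝔤) hΩ hz hA1 hA2
  obtain ⟨ρ, hρ1, hρ2, hρ3, hρ4⟩ := hCON 𝔤 W α ψ χ (fun i j => (hs i j).mono hW)
    (fun z hz => hp z (hW hz)) hc
  exact ⟨W, ψ, χ, ρ, hzW, hW, hc.openW, hc.openI, hc.smoothψ, hc.smoothχ, hc.inv, hρ1, hρ2, hρ3,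
    hρ4⟩

section

variable {M : Type u} [MetricSpace M] [ChartedSpace P M]
  [RiemannianBundle (fun (x : M) ↦ TangentSpace (𝓡 2) x)]

lemma IsoChart.injOn {U : Set ℂ} {φ : ℂ → M} {ψ : M → ℂ} {ρ : ℂ → ℝ} (h : IsoChart U φ ψ ρ) :
    InjOn φ U := fun a ha b hb hab => by
  rw [← h.inv a ha, ← h.inv b hb, hab]

lemma IsoChart.isOpen_image {U : Set ℂ} {φ : ℂ → M} {ψ : M → ℂ} {ρ : ℂ → ℝ}
    (h : IsoChart U φ ψ ρ) (S : Set ℂ) (hS : IsOpen S) (hSU : S ⊆ U) : IsOpen (φ '' S) := by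
  have h1 : φ '' S = φ '' U ∩ ψ ⁻¹' S := by
    ext m
    constructor
    · rintro ⟨w, hw, rfl⟩
      refine ⟨⟨w, hSU hw, rfl⟩, ?_⟩
      rw [mem_preimage, h.inv w (hSU hw)]
      exact hw
    · rintro ⟨⟨w, hw, rfl⟩, hm⟩
      rw [mem_preimage, h.inv w hw] at hm
      exact ⟨w, hm, rfl⟩
  rw [h1]
  exact h.smoothψ.continuousOn.isOpen_inter_preimage h.openI hS

end

/-- **Isothermal atlas**, from the lemmas. -/
theorem atlas_of (hLOC : S_LOC) (hAMA : S_AMA) (hCON : S_CON) (hCHA : S_CHA.{u}) (hTRA : S_TRA.{u})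
    (hLEN : S_LEN.{u}) (hSUB : S_SUB.{u}) (M : Type u) [MetricSpace M] [ChartedSpace P M]
    [IsManifold (𝓡 2) ∞ M] [RiemannianBundle (fun (x : M) ↦ TangentSpace (𝓡 2) x)]
    [IsContMDiffRiemannianBundle (𝓡 2) ∞ P (fun (x : M) ↦ TangentSpace (𝓡 2) x)]
    [IsRiemannianManifold (𝓡 2) M] :
    ∃ (U : M → Set ℂ) (φ : M → ℂ → M) (ρ : M → ℂ → ℝ), Pool.Agent.Q73.AD.Riem U φ ρ ∧
      (∀ i, ContDiffOn ℝ ∞ (ρ i) (U i)) ∧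
      ∀ (lam : ℝ) (f : M → ℝ), EigM lam f → ∀ i, ContDiffOn ℝ ∞ (fun w => f (φ i w)) (U i) ∧
        ∀ w ∈ U i, lapC (fun w => f (φ i w)) w + lam * ρ i w * f (φ i w) = 0 := by
  have hch := hCHA (fun Ω z₀ 𝔤 h1 h2 h3 h4 => iso_local hLOC hAMA hCON Ω z₀ 𝔤 h1 h2 h3 h4) M
  choose U φ ψ ρ hx hiso heig using hch
  refine ⟨U, φ, ρ, ?_, fun i => (hiso i).smoothρ, fun lam f hf i => heig i lam f hf⟩
  have hlen : ∀ x y : M, ∀ l ∈ Pool.Agent.Q73.AD.Lengths U φ ρ x y, dist x y ≤ l := by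
    rintro x y l ⟨n, i, γ, Q, h0, hn, hk, rfl⟩
    rw [← h0, ← hn]
    clear h0 hn
    induction n with
    | zero => simp
    | succ n ih =>
      rw [Finset.sum_range_succ]
      refine (dist_triangle _ (Q n) _).trans (add_le_add (ih fun k hk' => hk k (by omega)) ?_)
      obtain ⟨h1, h2, h3, h4⟩ := hk n (by omega)
      rw [← h3, ← h4]
      exact (hLEN M (U (i n)) (φ (i n)) (ψ (i n)) (ρ (i n)) (hiso (i n)) (γ n) h1 0 1 zero_le_one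
        h2).2
  refine ⟨fun i => (hiso i).openU, fun i => (hiso i).injOn, fun i => (hiso i).smoothφ.continuousOn,
    fun i S hS hSU => (hiso i).isOpen_image S hS hSU, fun x => ⟨x, hx x⟩, fun i => (hiso i).pos,
    fun i => (hiso i).smoothρ.of_le (by norm_num), fun i j z hz w hw h => ?_, fun x y => ?_⟩
  · exact hTRA M (U i) (U j) (φ i) (φ j) (ψ i) (ψ j) (ρ i) (ρ j) (hiso i) (hiso j) z hz w hw h
  · have hne : ∀ c, dist x y < c → ∃ l ∈ Pool.Agent.Q73.AD.Lengths U φ ρ x y, l < c := fun c hc =>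
      hSUB M M U φ ψ ρ hiso (fun x => ⟨x, hx x⟩) x y c hc
    refine (csInf_eq_of_forall_ge_of_forall_gt_exists_lt ?_ (hlen x y) ?_).symm
    · obtain ⟨l, hl, -⟩ := hne (dist x y + 1) (by linarith)
      exact ⟨l, hl⟩
    · exact fun c hc => hne c hc

end Pool.Agent.Q63.ISO
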