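import Mathlib

/-!
PROJECT ISO (helper63): smooth isothermal coordinates on Riemannian surfaces. Flat part.

`P` is the plane `EuclideanSpace ℝ (Fin 2)`, `𝓕 K x = ∫ exp (-2 π i ⟪ξ, x⟫) K ξ dξ`.
-/

set_option autoImplicit false

open MeasureTheory Set Filter Metric
open scoped FourierTransform ContDiff Convolution Topology

namespace Pool.Agent.Q63.ISO

/-- The plane. -/
abbrev P := EuclideanSpace ℝ (Fin 2)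

/-- The unit vectors. -/
noncomputable def be (i : Fin 2) : P := EuclideanSpace.single i 1

/-- All the moments of `K` are finite. -/
def Mom (K : P → ℂ) : Prop :=
  AEStronglyMeasurable K volume ∧ ∀ n : ℕ, Integrable (fun ξ => ‖ξ‖ ^ n * ‖K ξ‖)

/-- Convolution. -/
noncomputable def cv (f g : P → ℂ) : P → ℂ := f ⋆[ContinuousLinearMap.mul ℂ ℂ] g

/-- JOB TRN. Translations in `L¹`: `X (ξ-h) - X ξ = -∫_0^1 X'(ξ - s h) h ds`, Fubini. -/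
def S_TRN : Prop := ∀ X : SchwartzMap P ℂ, ∃ C : ℝ, 0 ≤ C ∧ ∀ h : P,
  Integrable (fun ξ => X (ξ - h) - X ξ) ∧ ∫ ξ, ‖X (ξ - h) - X ξ‖ ≤ C * ‖h‖

/-- JOB WIE (may assume `S_TRN`). Localisation in the Wiener algebra. Let `F` be `f` as a Schwartz function (complex
values; `HasCompactSupport.toSchwartzMap` or similar), `χ` a smooth bump function, `χ = 1` on
`closedBall 0 1`, support in `ball 0 2`. `K_δ = 𝓕⁻ (χ(·/δ) f)` is Schwartz, so `Mom K_δ`, and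
`𝓕 K_δ = χ(·/δ) f = f` on `closedBall 0 δ`. With the Schwartz functions `X = 𝓕⁻ χ`, `H = 𝓕⁻ f` and
`X_δ(ξ) = δ² X(δ ξ) = 𝓕⁻ (χ(·/δ)) (ξ)` we have `K_δ = H ⋆ X_δ`
(`SchwartzMap.convolution_apply`, or `Real.fourier_mul_convolution_eq` and injectivity), and
`∫ H = 𝓕 H 0 = f 0 = 0`, so `K_δ(ξ) = ∫ H(η) (X_δ(ξ-η) - X_δ(ξ)) dη` and
`∫ |K_δ| ≤ ∫ |H(η)| ∫ |X_δ(ξ-η) - X_δ(ξ)| dξ dη`, the inner integral is (substitution `δ ξ`)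
`∫ |X(ξ-δη) - X(ξ)| dξ ≤ C δ ‖η‖` (`S_TRN`). So `∫ |K_δ| ≤ C δ ∫ ‖η‖ |H(η)| → 0`. -/
def S_WIE : Prop := ∀ f : P → ℝ, ContDiff ℝ ∞ f → HasCompactSupport f → f 0 = 0 → ∀ ε : ℝ, 0 < ε →
  ∃ δ₀ : ℝ, 0 < δ₀ ∧ ∀ δ : ℝ, 0 < δ → δ ≤ δ₀ → ∃ K : P → ℂ, Mom K ∧ ∫ ξ, ‖K ξ‖ ≤ ε ∧
    ∀ x, ‖x‖ ≤ δ → 𝓕 K x = (f x : ℂ)

/-- JOB MOM. Moments of a series of iterated convolutions. For `e > 0` the weight `w(ξ) = (1 + e ‖ξ‖)^n` is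
submultiplicative: `w(ξ) ≤ w(η) w(ξ-η)`. So (Tonelli, translation invariance) `∫⁻ w N^{k+1} ≤ (∫⁻ w H) (∫⁻ w N^k)` and
`∫⁻ w N^k ≤ (∫⁻ w H)^{k+1}`. As `e → 0`, `∫⁻ w H → ∫⁻ H ≤ 1/10` by dominated convergence
(`w H ≤ (1+‖ξ‖)^n H` for `e ≤ 1`), so `∫⁻ w H ≤ 1/2` for some `e > 0`, the sum over `k` is finite, and
`‖ξ‖^n ≤ e^{-n} w(ξ)`. For the last claim `n = 0`: `Σ (1/10)^{k+1} = 1/9`. -/
def S_MOM : Prop := ∀ H : P → ENNReal, Measurable H → (∀ n : ℕ, ∫⁻ ξ, ‖ξ‖ₑ ^ n * H ξ ≠ ⊤) →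
  ∫⁻ ξ, H ξ ≤ 1 / 10 → ∀ N : ℕ → P → ENNReal, (∀ k, Measurable (N k)) → (∀ᵐ ξ, N 0 ξ ≤ H ξ) →
  (∀ k, ∀ᵐ ξ, N (k + 1) ξ ≤ ∫⁻ η, H η * N k (ξ - η)) →
  (∀ n : ℕ, ∑' k, ∫⁻ ξ, ‖ξ‖ₑ ^ n * N k ξ ≠ ⊤) ∧ ∑' k, ∫⁻ ξ, N k ξ ≤ 1 / 9

/-- JOB NEU (may assume `S_MOM`). Neumann series in `L¹` with all the moments. `κ = lam / 80`. Put
`v⁰_j = -(ξ_j/Q) Σ_l ξ_l K_{l0}`, `v^{k+1}_j = -(ξ_j/Q) Σ_{l,m} ξ_l (K_{lm} ⋆ v^k_m)` (everything is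
zero at `ξ = 0`). `|ξ_j ξ_l| / Q ≤ 1/lam`. With `N^k = Σ_j |v^k_j|` and `H = (2/lam) Σ_{l,m} |K_{lm}|`:
`N⁰ ≤ H`, `N^{k+1} ≤ H ⋆ N^k`, `∫ H ≤ 8κ/lam = 1/10`. So `S_MOM` (for measurable representatives) gives
`Σ_k ∫ ‖ξ‖^n N^k < ∞` and `Σ_k ∫ N^k ≤ 1/9 ≤ 1/4`. `v_j = Σ_k v^k_j` converges absolutely a.e. (`integrable_tsum`-type lemmas,
or `lintegral_tsum`), `K_{lm} ⋆ v_m = Σ_k K_{lm} ⋆ v^k_m` a.e. (`∫∫ |K_{lm}(η)| Σ_k |v^k_m(ξ-η)| < ∞`).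
It may help to replace `K_{lm}` first by a Borel measurable function (a.e. equal, same convolutions). -/
def S_NEU : Prop := ∀ lam : ℝ, 0 < lam → ∃ κ : ℝ, 0 < κ ∧ ∀ Q : P → ℝ, Measurable Q →
  (∀ ξ, lam * ‖ξ‖ ^ 2 ≤ Q ξ) → ∀ K : Fin 2 → Fin 2 → P → ℂ, (∀ l m, Mom (K l m)) →
  (∀ l m, ∫ ξ, ‖K l m ξ‖ ≤ κ) → ∃ v : Fin 2 → P → ℂ, (∀ j, Mom (v j)) ∧
    (∀ j, ∫ ξ, ‖v j ξ‖ ≤ 1 / 4) ∧
    ∀ᵐ ξ, ∀ j, v j ξ = -(((ξ j / Q ξ : ℝ) : ℂ) *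
      ∑ l, ((ξ l : ℝ) : ℂ) * (K l 0 ξ + ∑ m, cv (K l m) (v m) ξ))

/-- `2 × 2` symmetric positive definite matrices. -/
def Pos2 (A : Matrix (Fin 2) (Fin 2) ℝ) : Prop := A 0 1 = A 1 0 ∧ 0 < A 0 0 ∧ 0 < A.det

/-- JOB POT (from `S_WIE`, `S_NEU`). Solution of `div (A α) = 0`, `curl α = 0` near `z₀` with `α 0 ≥ 1/2`.
`a = A z₀`, `Q ξ = Σ a_{lm} ξ_l ξ_m ≥ lam ‖ξ‖²`. Let `χ₁` be a smooth bump function with compact support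
in the translate of `Ω`, `= 1` on a ball around `0`, `f_{lm}(x) = χ₁(x) (A_{lm}(z₀+x) - a_{lm})`. `S_WIE`
with `ε = κ` of `S_NEU` (common `δ`), get `K_{lm}` with `𝓕 K_{lm} = f_{lm} = A_{lm}(z₀+·) - a_{lm}` on
`closedBall 0 δ` and `v` of `S_NEU`. `α_j(x) = δ_{j0} + Re 𝓕 v_j (x - z₀)`. It is smooth
(`Real.contDiff_fourier...`), `|𝓕 v_j| ≤ ∫ |v_j| ≤ 1/4`. `∂_l 𝓕 g = 𝓕 (-2πi ξ_l g)`
(`Real.hasFDerivAt_fourier...`). Curl: `ξ_0 v_1 = ξ_1 v_0` a.e. Divergence: for a.e. `ξ`,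
`Σ_l ξ_l (K_{l0} + Σ_m K_{lm} ⋆ v_m) + Σ_{l,m} ξ_l a_{lm} v_m = 0` (as
`Σ_{l,m} ξ_l a_{lm} v_m = -(Σ ξ_l a_{lm} ξ_m / Q) Σ_l ξ_l (…)`), multiply by `-2πi` and apply `𝓕`:
`Σ_l ∂_l (B_{l0} + Σ_m (a_{lm} + B_{lm}) V_m) = 0` everywhere, `B_{lm} = 𝓕 K_{lm}`, `V_m = 𝓕 v_m`
(`Real.fourier_mul_convolution_eq`). On `ball 0 δ` `a + B = A(z₀+·)` is real; the real part gives the
claim (`Σ_l ∂_l a_{l0} = 0`). -/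
def S_POT : Prop := ∀ (Ω : Set P) (z₀ : P) (A : P → Matrix (Fin 2) (Fin 2) ℝ), IsOpen Ω → z₀ ∈ Ω →
  (∀ i j, ContDiffOn ℝ ∞ (fun z => A z i j) Ω) → Pos2 (A z₀) →
  ∃ δ : ℝ, 0 < δ ∧ ball z₀ δ ⊆ Ω ∧ ∃ α : Fin 2 → P → ℝ, (∀ j, ContDiff ℝ ∞ (α j)) ∧
    (∀ x, fderiv ℝ (α 1) x (be 0) = fderiv ℝ (α 0) x (be 1)) ∧
    (∀ x, 1 / 2 ≤ α 0 x) ∧
    ∀ x ∈ ball z₀ δ, ∑ l, fderiv ℝ (fun y => ∑ m, A y l m * α m y) x (be l) = 0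

/-- The matrix `√(det g) g⁻¹` of the Laplace-Beltrami operator. -/
noncomputable def amat (𝔤 : P → Matrix (Fin 2) (Fin 2) ℝ) (z : P) : Matrix (Fin 2) (Fin 2) ℝ :=
  √((𝔤 z).det) • (𝔤 z)⁻¹

/-- The data of isothermal coordinates on `W`: `ψ` is a diffeomorphism with inverse `χ`, its real part
has the gradient `α`, the imaginary part has the gradient `(-(Aα)_1, (Aα)_0)`. -/
structure CJ (A : P → Matrix (Fin 2) (Fin 2) ℝ) (W : Set P) (α : Fin 2 → P → ℝ) (ψ : P → ℂ)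
    (χ : ℂ → P) : Prop where
  openW : IsOpen W
  openI : IsOpen (ψ '' W)
  smoothψ : ContDiffOn ℝ ∞ ψ W
  smoothχ : ContDiffOn ℝ ∞ χ (ψ '' W)
  inv : ∀ z ∈ W, χ (ψ z) = z
  smoothα : ∀ j, ContDiffOn ℝ ∞ (α j) W
  curl : ∀ x ∈ W, fderiv ℝ (α 1) x (be 0) = fderiv ℝ (α 0) x (be 1)
  divg : ∀ x ∈ W, ∑ l, fderiv ℝ (fun y => ∑ m, A y l m * α m y) x (be l) = 0
  ne : ∀ x ∈ W, 0 < α 0 x
  der : ∀ z ∈ W, ∀ v : P, fderiv ℝ ψ z v = ((∑ j, α j z * v j : ℝ) : ℂ)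
    + ((-(∑ m, A z 1 m * α m z) * v 0 + (∑ m, A z 0 m * α m z) * v 1 : ℝ) : ℂ) * Complex.I

/-- JOB LOC (from `S_POT`). The `1`-forms `Σ α_j dx_j` and `-(Aα)_1 dx_0 + (Aα)_0 dx_1` are closed on
`ball z₀ δ`; `Convex.exists_forall_hasFDerivAt_of_fderiv_symmetric` (Poincaré's lemma, Mathlib) gives
primitives `a`, `b`, smooth since their derivatives are; `ψ = a + i b`. The determinant of the derivative is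
`α · A α > 0`. `ContDiffAt.toOpenPartialHomeomorph` (or its present name) at `z₀`, `W` = source ∩ ball,
`χ` = its inverse, smooth by `OpenPartialHomeomorph.contDiffAt_symm` at all points of `ψ '' W`. `Pos2 (A z)` holds
on `Ω`. -/
def S_LOC : Prop := ∀ (Ω : Set P) (z₀ : P) (A : P → Matrix (Fin 2) (Fin 2) ℝ), IsOpen Ω → z₀ ∈ Ω →
  (∀ i j, ContDiffOn ℝ ∞ (fun z => A z i j) Ω) → (∀ z ∈ Ω, Pos2 (A z)) →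
  ∃ (W : Set P) (α : Fin 2 → P → ℝ) (ψ : P → ℂ) (χ : ℂ → P), z₀ ∈ W ∧ W ⊆ Ω ∧ CJ A W α ψ χ

/-- The Laplace-Beltrami operator of the metric `𝔤` in coordinates. -/
noncomputable def LB (𝔤 : P → Matrix (Fin 2) (Fin 2) ℝ) (h : P → ℝ) (z : P) : ℝ :=
  (√((𝔤 z).det))⁻¹ * ∑ i, fderiv ℝ (fun y => √((𝔤 y).det) *
    ∑ j, (𝔤 y)⁻¹ i j * fderiv ℝ h y (be j)) z (be i)

/-- The Laplacian of `ℂ`. -/
noncomputable def lapC (h : ℂ → ℝ) (w : ℂ) : ℝ :=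
  fderiv ℝ (fun w => fderiv ℝ h w 1) w 1
    + fderiv ℝ (fun w => fderiv ℝ h w Complex.I) w Complex.I

/-- JOB CON. Conformality and the Laplace-Beltrami operator. `A = amat 𝔤 = [[g,-f],[-f,e]]/D` for
`𝔤 = [[e,f],[f,g]]`, `D = √(eg-f²)`; `det A = 1`. `S = Σ α_i (Aα)_i > 0`; `ρ(w) = D(χ w)/S(χ w)`, smooth.
Conformality: `(α·v)² + (-(Aα)_1 v_0 + (Aα)_0 v_1)² = (S/D) Σ 𝔤_{ij} v_i v_j` is an algebraic identity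
(`field_simp`, `ring`, `D² = eg-f²`). Laplace-Beltrami: with `β = (-(Aα)_1, (Aα)_0)` and `Aβ = (-α_1, α_0)`:
`A∇(h∘ψ) = (h_x∘ψ) Aα + (h_y∘ψ) Aβ`, both `Aα` and `Aβ` are divergence free (`divg`, `curl`), so the divergence is
`Σ_i (h_xx α_i + h_xy β_i)(Aα)_i + (h_yx α_i + h_yy β_i)(Aβ)_i = (h_xx + h_yy) S` as `β·Aα = 0 = α·Aβ`,
`β·Aβ = S`. Here `h_x(w) = fderiv h w 1`, `h_y(w) = fderiv h w I`. -/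
def S_CON : Prop := ∀ (𝔤 : P → Matrix (Fin 2) (Fin 2) ℝ) (W : Set P) (α : Fin 2 → P → ℝ) (ψ : P → ℂ)
  (χ : ℂ → P), (∀ i j, ContDiffOn ℝ ∞ (fun z => 𝔤 z i j) W) → (∀ z ∈ W, Pos2 (𝔤 z)) →
  CJ (amat 𝔤) W α ψ χ → ∃ ρ : ℂ → ℝ, ContDiffOn ℝ ∞ ρ (ψ '' W) ∧ (∀ w ∈ ψ '' W, 0 < ρ w) ∧
    (∀ z ∈ W, ∀ v : P, ∑ i, ∑ j, 𝔤 z i j * v i * v j = ρ (ψ z) * ‖fderiv ℝ ψ z v‖ ^ 2) ∧
    ∀ h : ℂ → ℝ, ContDiffOn ℝ ∞ h (ψ '' W) → ∀ z ∈ W,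
      lapC h (ψ z) = ρ (ψ z) * LB 𝔤 (fun y => h (ψ y)) z

/-- JOB AMA. `amat 𝔤` is smooth, symmetric, positive definite (formula for the inverse of a `2 × 2`
matrix). -/
def S_AMA : Prop := ∀ (𝔤 : P → Matrix (Fin 2) (Fin 2) ℝ) (W : Set P),
  (∀ i j, ContDiffOn ℝ ∞ (fun z => 𝔤 z i j) W) → (∀ z ∈ W, Pos2 (𝔤 z)) →
  (∀ i j, ContDiffOn ℝ ∞ (fun z => amat 𝔤 z i j) W) ∧ ∀ z ∈ W, Pos2 (amat 𝔤 z)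

end Pool.Agent.Q63.ISO
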