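import Pool.Agent.Q63.ISO.Stm
import Pool.Agent.Q73.AD.StmR

/-!
PROJECT ISO (helper63), part two: from a Riemannian manifold of dimension two (in the sense of Mathlib) to
an isothermal atlas (`Pool.Agent.Q73.AD.Riem`).
-/

set_option autoImplicit false

open MeasureTheory Set Filter Metric Bundle
open scoped ContDiff Topology Manifold

namespace Pool.Agent.Q63.ISO

universe u

section

variable {M : Type u} [TopologicalSpace M] [ChartedSpace P M]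
  [RiemannianBundle (fun (x : M) ↦ TangentSpace (𝓡 2) x)]

/-- The derivative of the inverse of the chart at `x₀`. -/
noncomputable def dch (x₀ : M) (z : P) : TangentSpace 𝓘(ℝ, P) z →L[ℝ]
    TangentSpace (𝓡 2) ((extChartAt (𝓡 2) x₀).symm z) :=
  mfderiv 𝓘(ℝ, P) (𝓡 2) (extChartAt (𝓡 2) x₀).symm z

/-- The matrix of the metric in the chart at `x₀`: the inner products of the coordinate vectors. -/
noncomputable def gram (x₀ : M) (z : P) : Matrix (Fin 2) (Fin 2) ℝ :=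
  Matrix.of fun i j => inner ℝ (dch x₀ z (be i)) (dch x₀ z (be j))

/-- Smooth real functions with `Δ_g f + lam f = 0`, where the Laplace-Beltrami operator is computed in the
charts. -/
def EigM (lam : ℝ) (f : M → ℝ) : Prop :=
  ContMDiff (𝓡 2) 𝓘(ℝ, ℝ) ∞ f ∧ ∀ x₀ : M, ∀ z ∈ (extChartAt (𝓡 2) x₀).target,
    LB (gram x₀) (fun y => f ((extChartAt (𝓡 2) x₀).symm y)) z
      + lam * f ((extChartAt (𝓡 2) x₀).symm z) = 0

/-- Isothermal charts of `M`: `φ` is a diffeomorphism of `U` onto an open set, with inverse `ψ`, the metric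
is `ρ |dw|²`. -/
structure IsoChart (U : Set ℂ) (φ : ℂ → M) (ψ : M → ℂ) (ρ : ℂ → ℝ) : Prop where
  openU : IsOpen U
  openI : IsOpen (φ '' U)
  smoothφ : ContMDiffOn 𝓘(ℝ, ℂ) (𝓡 2) ∞ φ U
  smoothψ : ContMDiffOn (𝓡 2) 𝓘(ℝ, ℂ) ∞ ψ (φ '' U)
  inv : ∀ w ∈ U, ψ (φ w) = w
  smoothρ : ContDiffOn ℝ ∞ ρ U
  pos : ∀ w ∈ U, 0 < ρ w
  conf : ∀ w ∈ U, ∀ v : ℂ, ‖mfderiv 𝓘(ℝ, ℂ) (𝓡 2) φ w v‖ ^ 2 = ρ w * ‖v‖ ^ 2

end

/-- JOB GRA. The matrix of the metric is smooth, symmetric and positive definite on the (open) target of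
the chart. Smooth: `ContMDiffOn.inner_bundle` (or `ContMDiffAt`) for the sections
`m ↦ (trivializationAt _ _ x₀).symm m (be i)` over the source of the chart, which are
`m ↦ dch x₀ (e m) (be i)` (`TangentBundle.symmL_trivializationAt`), composed with the smooth map `e.symm`. Positive:
`dch x₀ z` is injective (`mfderiv` of `e` composed with it is the identity), Cauchy-Schwarz strict; or
`Σ 𝔤_{ij} v_i v_j = ‖dch x₀ z v‖² > 0`. -/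
def S_GRA : Prop := ∀ (M : Type u) [TopologicalSpace M] [ChartedSpace P M] [IsManifold (𝓡 2) ∞ M]
  [RiemannianBundle (fun (x : M) ↦ TangentSpace (𝓡 2) x)]
  [IsContMDiffRiemannianBundle (𝓡 2) ∞ P (fun (x : M) ↦ TangentSpace (𝓡 2) x)] (x₀ : M),
  IsOpen (extChartAt (𝓡 2) x₀).target ∧
  (∀ i j, ContDiffOn ℝ ∞ (fun z => gram x₀ z i j) (extChartAt (𝓡 2) x₀).target) ∧
  ∀ z ∈ (extChartAt (𝓡 2) x₀).target, Pos2 (gram x₀ z) ∧
    ∀ v : P, ‖dch x₀ z v‖ ^ 2 = ∑ i, ∑ j, gram x₀ z i j * v i * v j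

/-- JOB CHA. Isothermal charts, from the local theorem (hypothesis in the form of the conclusions of
`S_LOC`, `S_CON`) and `S_GRA`: `e = extChartAt (𝓡 2) x₀`, `z₀ = e x₀`, `W ⊆ e.target`, `U = ψ '' W`, the chart is
`e.symm ∘ χ`, its inverse `ψ ∘ e`. Chain rule for `mfderiv`. The function `h = f ∘ e.symm ∘ χ` on `U` satisfies
`h ∘ ψ = f ∘ e.symm` on `W` (so the same `LB` at points of `W`: derivatives only depend on the germ). -/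
def S_CHA : Prop :=
  (∀ (Ω : Set P) (z₀ : P) (𝔤 : P → Matrix (Fin 2) (Fin 2) ℝ), IsOpen Ω → z₀ ∈ Ω →
    (∀ i j, ContDiffOn ℝ ∞ (fun z => 𝔤 z i j) Ω) → (∀ z ∈ Ω, Pos2 (𝔤 z)) →
    ∃ (W : Set P) (ψ : P → ℂ) (χ : ℂ → P) (ρ : ℂ → ℝ), z₀ ∈ W ∧ W ⊆ Ω ∧ IsOpen W ∧ IsOpen (ψ '' W) ∧
      ContDiffOn ℝ ∞ ψ W ∧ ContDiffOn ℝ ∞ χ (ψ '' W) ∧ (∀ z ∈ W, χ (ψ z) = z) ∧
      ContDiffOn ℝ ∞ ρ (ψ '' W) ∧ (∀ w ∈ ψ '' W, 0 < ρ w) ∧
      (∀ z ∈ W, ∀ v : P, ∑ i, ∑ j, 𝔤 z i j * v i * v j = ρ (ψ z) * ‖fderiv ℝ ψ z v‖ ^ 2) ∧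
      ∀ h : ℂ → ℝ, ContDiffOn ℝ ∞ h (ψ '' W) → ∀ z ∈ W,
        lapC h (ψ z) = ρ (ψ z) * LB 𝔤 (fun y => h (ψ y)) z) →
  ∀ (M : Type u) [TopologicalSpace M] [ChartedSpace P M] [IsManifold (𝓡 2) ∞ M]
    [RiemannianBundle (fun (x : M) ↦ TangentSpace (𝓡 2) x)]
    [IsContMDiffRiemannianBundle (𝓡 2) ∞ P (fun (x : M) ↦ TangentSpace (𝓡 2) x)] (x₀ : M),
    ∃ (U : Set ℂ) (φ : ℂ → M) (ψ : M → ℂ) (ρ : ℂ → ℝ), x₀ ∈ φ '' U ∧ IsoChart U φ ψ ρ ∧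
      ∀ (lam : ℝ) (f : M → ℝ), EigM lam f → ContDiffOn ℝ ∞ (fun w => f (φ w)) U ∧
        ∀ w ∈ U, lapC (fun w => f (φ w)) w + lam * ρ w * f (φ w) = 0

/-- JOB TRA. Transition maps between isothermal charts: `τ = ψ' ∘ φ`. `φ' ∘ τ = φ` near `z`, take derivatives
(`mfderiv_comp`) and norms. -/
def S_TRA : Prop := ∀ (M : Type u) [TopologicalSpace M] [ChartedSpace P M] [IsManifold (𝓡 2) ∞ M]
  [RiemannianBundle (fun (x : M) ↦ TangentSpace (𝓡 2) x)]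
  (U U' : Set ℂ) (φ φ' : ℂ → M) (ψ ψ' : M → ℂ) (ρ ρ' : ℂ → ℝ), IsoChart U φ ψ ρ →
  IsoChart U' φ' ψ' ρ' → ∀ z ∈ U, ∀ w ∈ U', φ z = φ' w → ∃ τ : ℂ → ℂ, τ z = w ∧
    (∀ᶠ z' in 𝓝 z, τ z' ∈ U' ∧ φ' (τ z') = φ z') ∧ DifferentiableAt ℝ τ z ∧
    ∀ v : ℂ, ρ' w * ‖fderiv ℝ τ z v‖ ^ 2 = ρ z * ‖v‖ ^ 2

/-- JOB LEN. Lengths in an isothermal chart: for a `C¹` curve `γ` in `U` the length of `φ ∘ γ` in the sense of
Mathlib (`Manifold.pathELength`) is `∫ √ρ(γ) |γ'|`; hence (`Manifold.riemannianEDist_le_pathELength`) the distance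
of the ends is at most this. -/
def S_LEN : Prop := ∀ (M : Type u) [MetricSpace M] [ChartedSpace P M] [IsManifold (𝓡 2) ∞ M]
  [RiemannianBundle (fun (x : M) ↦ TangentSpace (𝓡 2) x)] [IsRiemannianManifold (𝓡 2) M]
  (U : Set ℂ) (φ : ℂ → M) (ψ : M → ℂ) (ρ : ℂ → ℝ), IsoChart U φ ψ ρ → ∀ γ : ℝ → ℂ,
  ContDiff ℝ 1 γ → ∀ a b : ℝ, a ≤ b → (∀ t ∈ Icc a b, γ t ∈ U) →
    Manifold.pathELength (𝓡 2) (fun t => φ (γ t)) a b
      = ENNReal.ofReal (∫ t in a..b, √(ρ (γ t)) * ‖deriv γ t‖) ∧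
    dist (φ (γ a)) (φ (γ b)) ≤ ∫ t in a..b, √(ρ (γ t)) * ‖deriv γ t‖

/-- JOB SUB (uses `S_LEN`). Subdivision. Let `c > dist x y`. `edist x y = riemannianEDist < ofReal c`, so by
`Manifold.exists_lt_locally_constant_of_riemannianEDist_lt` there is a `C¹` curve `γ : ℝ → M` on `[0,1]` from `x` to
`y` of length `< c`. By Lebesgue's number lemma there are `n` and charts `i k` such that
`γ [k/n, (k+1)/n] ⊆ φ (i k) '' U (i k)`. The curve `σ k t = ψ (i k) (γ ((k+t)/n))` is `C¹` near `[0,1]`, with values in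
`U (i k)` on `[0,1]`; multiply by a smooth cut-off to get a `C¹` function on `ℝ` with the same values near
`[0,1]`. The sum of the lengths is the length of `γ` (`S_LEN` for `σ k`, `Manifold.pathELength_add`,
reparametrisation `Manifold.pathELength_comp_of_monotoneOn`). -/
def S_SUB : Prop := ∀ (M : Type u) [MetricSpace M] [ChartedSpace P M] [IsManifold (𝓡 2) ∞ M]
  [RiemannianBundle (fun (x : M) ↦ TangentSpace (𝓡 2) x)] [IsRiemannianManifold (𝓡 2) M]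
  (ι : Type u) (U : ι → Set ℂ) (φ : ι → ℂ → M) (ψ : ι → M → ℂ) (ρ : ι → ℂ → ℝ),
  (∀ i, IsoChart (U i) (φ i) (ψ i) (ρ i)) → (∀ x, ∃ i, x ∈ φ i '' U i) → ∀ (x y : M) (c : ℝ),
  dist x y < c → ∃ l ∈ Pool.Agent.Q73.AD.Lengths U φ ρ x y, l < c

end Pool.Agent.Q63.ISO
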